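import Mathlib
import Pool.Agent.TH923.DM.Defs

/-!
Job 1451 (DM-L1): dimension of the annuli of a stable space, finite and infinite places,
from lemma N.
-/

set_option autoImplicit false

namespace Pool.Agent.TH923.DM

open Polynomial

universe w v

section

variable {L : Type*} [Field L] {u : L → ℤ} (p : ℕ) [Fact p.Prime] [CharP L p]
  [Algebra (ZMod p) L]

omit [CharP L p] in
/-- the preimage of a subspace under an endomorphism of a finite dimensional space has at least
its dimension -/
lemma finrank_preimage460 (M : Submodule (ZMod p) L) [FiniteDimensional (ZMod p) M]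
    (φ : L →ₗ[ZMod p] L) (hφ : ∀ x ∈ M, φ x ∈ M) (L0 : Submodule (ZMod p) L) (hL0 : L0 ≤ M) :
    Module.finrank (ZMod p) L0 ≤
      Module.finrank (ZMod p) (M ⊓ L0.comap φ : Submodule (ZMod p) L) := by
  set f : M →ₗ[ZMod p] M := φ.restrict hφ with hf
  set L1 : Submodule (ZMod p) M := L0.comap M.subtype with hL1
  have e1 : Module.finrank (ZMod p) L1 = Module.finrank (ZMod p) L0 := by
    rw [← Submodule.finrank_map_subtype_eq M L1, hL1, Submodule.map_comap_subtype,
      inf_eq_right.2 hL0]
  have e2 := LinearMap.finrank_range_add_finrank_ker (L1.mkQ.comp f)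
  have e3 : Module.finrank (ZMod p) (LinearMap.range (L1.mkQ.comp f)) ≤
      Module.finrank (ZMod p) (M ⧸ L1) := Submodule.finrank_le _
  have e4 := Submodule.finrank_quotient_add_finrank L1
  have e5 : Module.finrank (ZMod p) (LinearMap.ker (L1.mkQ.comp f)) ≤
      Module.finrank (ZMod p) (M ⊓ L0.comap φ : Submodule (ZMod p) L) := by
    rw [← Submodule.finrank_map_subtype_eq M]
    have : FiniteDimensional (ZMod p) (M ⊓ L0.comap φ : Submodule (ZMod p) L) :=
      Submodule.finiteDimensional_of_le (S₂ := M) inf_le_left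
    apply Submodule.finrank_mono
    rintro _ ⟨x, hx, rfl⟩
    refine ⟨x.2, ?_⟩
    have h1 : L1.mkQ (f x) = 0 := hx
    rw [Submodule.mkQ_apply, Submodule.Quotient.mk_eq_zero] at h1
    exact h1
  omega

/-- the common part of both estimates -/
lemma annulus460 (hu : IsOrd u) (g : ℕ → L) (r : ℕ) (M : Submodule (ZMod p) L)
    [FiniteDimensional (ZMod p) M] (hM : ∀ x ∈ M, ev p g r x ∈ M) (s t : ℝ) (hst : s ≤ t) (k : ℕ)
    (hk : ∀ (U : Submodule (ZMod p) L) [FiniteDimensional (ZMod p) U],
      (∀ z ∈ U, z ≠ 0 → GE u (ev p g r z) s ∧ (u z : ℝ) < t) → Module.finrank (ZMod p) U ≤ k)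
    (V : Submodule (ZMod p) L) (hV : V ≤ M) :
    Module.finrank (ZMod p) (lev p hu V s) ≤ Module.finrank (ZMod p) (lev p hu V t) + k := by
  have hlM : ∀ t, lev p hu M t ≤ M := fun t x hx => hx.1
  have hfdM : ∀ t, FiniteDimensional (ZMod p) (lev p hu M t) := fun t =>
    Submodule.finiteDimensional_of_le (hlM t)
  -- the statement for `M`
  have key : Module.finrank (ZMod p) (lev p hu M s) ≤
      Module.finrank (ZMod p) (lev p hu M t) + k := by
    set Z : Submodule (ZMod p) L := M ⊓ (lev p hu M s).comap (evL p g r) with hZ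
    have hfdZ : FiniteDimensional (ZMod p) Z :=
      Submodule.finiteDimensional_of_le (S₂ := M) inf_le_left
    have e1 : Module.finrank (ZMod p) (lev p hu M s) ≤ Module.finrank (ZMod p) Z :=
      finrank_preimage460 p M (evL p g r) hM _ (hlM s)
    obtain ⟨U', hU'⟩ := Submodule.exists_isCompl ((lev p hu M t).comap Z.subtype)
    have e2 := Submodule.finrank_add_eq_of_isCompl hU'
    have e3 : Module.finrank (ZMod p) ((lev p hu M t).comap Z.subtype) ≤
        Module.finrank (ZMod p) (lev p hu M t) := by
      rw [← Submodule.finrank_map_subtype_eq Z, Submodule.map_comap_subtype]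
      exact Submodule.finrank_mono inf_le_right
    have e4 : Module.finrank (ZMod p) U' ≤ k := by
      rw [← Submodule.finrank_map_subtype_eq Z]
      apply hk
      rintro _ ⟨z, hz, rfl⟩ hz0
      refine ⟨z.2.2.2, ?_⟩
      by_contra hcon
      push Not at hcon
      have h1 : z ∈ (lev p hu M t).comap Z.subtype := ⟨z.2.1, Or.inr hcon⟩
      have h2 := Submodule.disjoint_def.1 hU'.disjoint z h1 hz
      apply hz0
      rw [h2]
      simp
    omega
  have hfdA : FiniteDimensional (ZMod p) (lev p hu V s) :=
    Submodule.finiteDimensional_of_le (S₂ := M) fun x hx => hV hx.1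
  have hfdB := hfdM t
  have hfdC : FiniteDimensional (ZMod p) (lev p hu V t) :=
    Submodule.finiteDimensional_of_le (S₂ := M) fun x hx => hV hx.1
  have hfdD := hfdM s
  have e1 := Submodule.finrank_sup_add_finrank_inf_eq (lev p hu V s) (lev p hu M t)
  have e2 : Module.finrank (ZMod p) (lev p hu V s ⊔ lev p hu M t : Submodule (ZMod p) L) ≤
      Module.finrank (ZMod p) (lev p hu M s) := by
    apply Submodule.finrank_mono
    rw [sup_le_iff]
    exact ⟨fun x hx => ⟨hV hx.1, hx.2⟩, fun x hx => ⟨hx.1, hx.2.mono hst⟩⟩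
  have e3 : Module.finrank (ZMod p) (lev p hu V s ⊓ lev p hu M t : Submodule (ZMod p) L) ≤
      Module.finrank (ZMod p) (lev p hu V t) := by
    apply Submodule.finrank_mono
    exact fun x hx => ⟨hx.1.1, hx.2.2⟩
  omega

end

theorem lemL1 (hN : S_N.{w}) : S_L1.{w} := by
  intro p _ L _ _ _ u hu g r c hr hloc hg0 M _ hM V hV x hx
  have hp := (Fact.out : p.Prime)
  have hp1 : (1 : ℝ) < p := by exact_mod_cast hp.one_lt
  have hp0 : (0 : ℝ) < p := by linarith
  refine annulus460 p hu g r M hM _ _ (by nlinarith) (r - 1) ?_ V hV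
  intro U _ hU
  -- Frobenius
  set ψ : L →ₗ[ZMod p] L := evL p (fun i => if i = 0 then 0 else 1) 1 with hψ
  have hψa : ∀ x, ψ x = x ^ p := by
    intro x
    rw [hψ, evL_apply]
    simp [ev, Finset.sum_range_succ]
  have hinj : Function.Injective (ψ.domRestrict U) := by
    rw [← LinearMap.ker_eq_bot, LinearMap.ker_eq_bot']
    intro x hx
    rw [LinearMap.domRestrict_apply, hψa] at hx
    have := pow_eq_zero_iff hp.ne_zero |>.1 hx
    exact Subtype.ext this
  have e1 : Module.finrank (ZMod p) (U.map ψ) = Module.finrank (ZMod p) U := by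
    rw [← LinearMap.finrank_range_of_inj hinj, LinearMap.range_domRestrict]
  rw [← e1]
  refine hN p L u hu (r - 1) (fun i => g (i + 1)) (fun t => min (c - p * x) (t / p)) ?_ (U.map ψ)
    ?_ ?_
  · intro s t hst
    simp only
    have h1 : s / p - s ≥ t / p - t := by
      have : t / p - s / p ≤ t - s := by
        rw [← sub_div]
        apply div_le_self (by linarith) hp1.le
      linarith
    rcases min_cases (c - p * x) (s / p) with h2 | h2
    · have := min_le_left (c - p * x) (t / p)
      linarith
    · have := min_le_right (c - p * x) (t / p)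
      linarith
  · rintro _ ⟨z, hz, rfl⟩ hne
    have hz0 : z ≠ 0 := by
      intro h0; rw [h0, map_zero] at hne; exact hne rfl
    obtain ⟨h1, h2⟩ := hU z hz hz0
    rw [hψa]
    have e2 : (u (z ^ p) : ℝ) / p = u z := by
      rw [hu.pow hz0]
      push_cast
      field_simp
    rw [e2]
    have e3 : ev p (fun i => g (i + 1)) (r - 1) (z ^ p) = ev p g r z - g 0 * z := by
      unfold ev
      rw [Nat.sub_add_cancel hr, Finset.sum_range_succ' _ r]
      simp only [pow_zero, pow_one]
      rw [add_sub_cancel_right]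
      refine Finset.sum_congr rfl fun i _ => ?_
      rw [← pow_mul, pow_succ']
    rw [e3]
    refine (h1.mono (min_le_left _ _)).sub hu ?_
    have e4 := hg0.mul hu (GE.self (u := u) z)
    exact e4.mono (by rw [zero_add]; exact min_le_right _ _)
  · rintro _ ⟨z, hz, rfl⟩ hne
    have hz0 : z ≠ 0 := by
      intro h0; rw [h0, map_zero] at hne; exact hne rfl
    obtain ⟨h1, h2⟩ := hU z hz hz0
    obtain ⟨i, hi1, hir, hgi, hui⟩ := hloc.eq
    refine ⟨i - 1, by omega, ?_, ?_⟩
    · simp only [Nat.sub_add_cancel hi1]; exact hgi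
    · simp only [Nat.sub_add_cancel hi1]
      rw [hψa]
      have e2 : (u (z ^ p) : ℝ) = p * u z := by
        rw [hu.pow hz0]
        push_cast
        ring
      rw [e2, hui]
      have e3 : (p : ℝ) ^ i = (p : ℝ) ^ (i - 1) * p := by
        rw [← pow_succ, Nat.sub_add_cancel hi1]
      have e4 : (1 : ℝ) ≤ (p : ℝ) ^ (i - 1) := one_le_pow₀ hp1.le
      have e5 : -((p : ℝ) ^ i - 1) * c + (p : ℝ) ^ (i - 1) * (p * u z) =
          c - (p : ℝ) ^ i * (c - u z) := by
        rw [e3]; ring
      rw [e5]
      have hn : x < c - u z := by linarith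
      have e6 : (p : ℝ) ≤ (p : ℝ) ^ i := by rw [e3]; nlinarith
      have e7 : (p : ℝ) * u z / p = u z := by field_simp
      rw [e7, lt_min_iff]
      constructor
      · have : (p : ℝ) * x < (p : ℝ) ^ i * (c - u z) := by
          calc (p : ℝ) * x < p * (c - u z) := by nlinarith
            _ ≤ (p : ℝ) ^ i * (c - u z) := by nlinarith
        linarith
      · have : c - u z < (p : ℝ) ^ i * (c - u z) := by nlinarith
        linarith

theorem lemLinf (hN : S_N.{w}) : S_Linf.{w} := by
  intro p _ L _ _ _ u hu g r hr hg0 hug0 M _ hM V hV t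
  refine annulus460 p hu g r M hM t (t + 1) (by linarith) r ?_ V hV
  intro U _ hU
  refine hN p L u hu r g (fun _ => t) ?_ U ?_ ?_
  · intro a b hab
    simp only
    linarith
  · intro y hy hy0
    exact (hU y hy hy0).1
  · intro y hy hy0
    refine ⟨0, Nat.zero_le _, hg0, ?_⟩
    have h1 := (hU y hy hy0).2
    have h2 : (u (g 0) : ℝ) ≤ -1 := by exact_mod_cast hug0
    rw [pow_zero, one_mul]
    linarith

end Pool.Agent.TH923.DM
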