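import Mathlib
import Pool.Agent.TH923.DM.Defs

/-!
Job 1454 (DM-DEC): decay of the successive norms in an adapted basis.
-/

set_option autoImplicit false

namespace Pool.Agent.TH923.DM

open Polynomial

universe w v

section

variable {L : Type*} [Field L] {u : L → ℤ} {p : ℕ} [Fact p.Prime] [CharP L p]
  [Algebra (ZMod p) L] {V : Submodule (ZMod p) L} {h : ℕ} {b : Fin h → L}

omit [CharP L p] in
lemma AdBasis.finrank460 (hb : AdBasis p u V h b) : Module.finrank (ZMod p) V = h := by
  have := finrank_span_eq_card hb.li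
  rw [hb.span, Fintype.card_fin] at this
  exact this

omit [CharP L p] in
lemma AdBasis.fd460 (hb : AdBasis p u V h b) : FiniteDimensional (ZMod p) V := by
  rw [← hb.span]
  exact FiniteDimensional.span_of_finite (ZMod p) (Set.finite_range b)

omit [CharP L p] in
lemma AdBasis.mem460 (hb : AdBasis p u V h b) (i : Fin h) : b i ∈ V := by
  rw [← hb.span]
  exact Submodule.subset_span ⟨i, rfl⟩

/-- the whole space has order at least that of the first basis vector -/
lemma AdBasis.lev_first460 (hu : IsOrd u) (hb : AdBasis p u V h b) (i : Fin h) (hi : (i : ℕ) = 0) :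
    Module.finrank (ZMod p) (lev p hu V (u (b i))) = h := by
  have : lev p hu V (u (b i)) = V := by
    apply le_antisymm (fun x hx => hx.1)
    have h1 : Submodule.span (ZMod p) (Set.range b) ≤ lev p hu V (u (b i)) := by
      rw [Submodule.span_le]
      rintro _ ⟨j, rfl⟩
      refine ⟨hb.mem460 j, Or.inr ?_⟩
      have : i ≤ j := by rw [Fin.le_def]; omega
      exact_mod_cast hb.mono this
    rwa [hb.span] at h1
  rw [this, hb.finrank460]

/-- a level above the order of `b i0` has codimension more than `i0` -/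
lemma AdBasis.lev_card460 (hu : IsOrd u) (hb : AdBasis p u V h b) (i0 : Fin h) (t : ℝ)
    (ht : (u (b i0) : ℝ) < t) :
    Module.finrank (ZMod p) (lev p hu V t) + i0 + 1 ≤ h := by
  classical
  have hfd := hb.fd460
  set S : Submodule (ZMod p) L :=
    Submodule.span (ZMod p) (Set.range fun j : {j : Fin h // j ≤ i0} => b j) with hS
  have hSV : S ≤ V := by
    rw [hS, Submodule.span_le]
    rintro _ ⟨j, rfl⟩
    exact hb.mem460 j
  have hlV : lev p hu V t ≤ V := fun x hx => hx.1
  have hfdS : FiniteDimensional (ZMod p) S := Submodule.finiteDimensional_of_le hSV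
  have hfdl : FiniteDimensional (ZMod p) (lev p hu V t) := Submodule.finiteDimensional_of_le hlV
  have hcard : Module.finrank (ZMod p) S = i0 + 1 := by
    have h1 : LinearIndependent (ZMod p) (fun j : {j : Fin h // j ≤ i0} => b j) :=
      hb.li.comp _ Subtype.val_injective
    rw [hS, finrank_span_eq_card h1, Fintype.card_subtype]
    have : (Finset.univ.filter fun j : Fin h => j ≤ i0) = Finset.Iic i0 := by
      ext j; simp
    rw [this, Fin.card_Iic]
  have hdisj : lev p hu V t ⊓ S = ⊥ := by
    rw [Submodule.eq_bot_iff]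
    rintro x ⟨hx1, hx2⟩
    by_contra hx0
    have h1 : Set.range (fun j : {j : Fin h // j ≤ i0} => b j) = b '' {j | j ≤ i0} := by
      rw [Set.image_eq_range]
      rfl
    have hx2' : x ∈ Submodule.span (ZMod p) (b '' {j | j ≤ i0}) := by
      rw [← h1]; exact hx2
    rw [Finsupp.mem_span_image_iff_linearCombination] at hx2'
    obtain ⟨l, hl, hlx⟩ := hx2'
    have hlx' : x = ∑ j, l j • b j := by
      rw [← hlx, Finsupp.linearCombination_apply, Finsupp.sum_fintype _ _ (fun i => by simp)]
    have hne : ((Finset.univ : Finset (Fin h)).filter fun j => l j ≠ 0).Nonempty := by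
      by_contra hcon
      rw [Finset.not_nonempty_iff_eq_empty, Finset.filter_eq_empty_iff] at hcon
      apply hx0
      rw [hlx']
      refine Finset.sum_eq_zero fun j hj => ?_
      have := hcon hj
      push Not at this
      rw [this, zero_smul]
    obtain ⟨i1, hi1, hmin⟩ := Finset.exists_min_image _ (fun j => j) hne
    rw [Finset.mem_filter] at hi1
    have h2 : ∀ j < i1, l j = 0 := by
      intro j hj
      by_contra hcon
      exact absurd (hmin j (Finset.mem_filter.2 ⟨Finset.mem_univ _, hcon⟩)) (not_le.2 hj)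
    have h3 := hb.val (fun j => l j) i1 hi1.2 h2
    rw [← hlx'] at h3
    have h4 : i1 ≤ i0 := by
      have h5 : i1 ∈ (l.support : Set (Fin h)) := by simpa using hi1.2
      exact (Finsupp.mem_supported _ _).1 hl h5
    have h5 : (u (b i1) : ℝ) ≤ u (b i0) := by exact_mod_cast hb.mono h4
    have h6 := hx1.2.ord hx0
    rw [h3] at h6
    linarith
  have h7 := Submodule.finrank_sup_add_finrank_inf_eq (lev p hu V t) S
  rw [hdisj, finrank_bot, hcard] at h7
  have h8 : Module.finrank (ZMod p) (lev p hu V t ⊔ S : Submodule (ZMod p) L) ≤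
      Module.finrank (ZMod p) V := Submodule.finrank_mono (sup_le hlV hSV)
  rw [hb.finrank460] at h8
  omega

end

theorem lemDEC (h1 : S_L1.{w}) : S_DEC.{w} := by
  intro p _ L _ _ _ u hu g r c hr hloc hg0 M _ hM V hV h b hb j i i0 hi hij
  have hp := (Fact.out : p.Prime)
  have hp1 : (1 : ℝ) < p := by exact_mod_cast hp.one_lt
  have hp0 : (0 : ℝ) < p := by linarith
  have hpj : (0 : ℝ) < (p : ℝ) ^ j := by positivity
  have hmono : (u (b i) : ℝ) ≤ u (b i0) := by
    have : i ≤ i0 := by rw [Fin.le_def]; omega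
    exact_mod_cast hb.mono this
  by_cases hn : c - u (b i) ≤ 0
  · have h2 : (p : ℝ) ^ j * (c - u (b i0)) ≤ 0 :=
      mul_nonpos_of_nonneg_of_nonpos hpj.le (by linarith)
    exact h2.trans (le_max_left _ _)
  push Not at hn
  refine le_trans ?_ (le_max_right _ _)
  by_contra hcon
  push Not at hcon
  set n0 : ℝ := c - u (b i) with hn0
  have key : ∀ j' : ℕ, h ≤ Module.finrank (ZMod p) (lev p hu V (c - n0 / (p : ℝ) ^ j')) +
      (r - 1) * j' := by
    intro j'
    induction j' with
    | zero =>
      rw [pow_zero, div_one]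
      have e1 : c - n0 = u (b i) := by rw [hn0]; ring
      rw [e1, hb.lev_first460 hu i hi]
      exact Nat.le_add_right _ _
    | succ j' ih =>
      have hpos : 0 < n0 / (p : ℝ) ^ (j' + 1) := by positivity
      have e2 := h1 p L u hu g r c hr hloc hg0 M hM V hV (n0 / (p : ℝ) ^ (j' + 1)) hpos
      have e3 : (p : ℝ) * (n0 / (p : ℝ) ^ (j' + 1)) = n0 / (p : ℝ) ^ j' := by
        rw [pow_succ]
        field_simp
      rw [e3] at e2
      calc h ≤ _ := ih
        _ ≤ Module.finrank (ZMod p) (lev p hu V (c - n0 / (p : ℝ) ^ (j' + 1))) + (r - 1) +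
            (r - 1) * j' := by omega
        _ = _ := by ring
  have e4 := key j
  have e5 : (u (b i0) : ℝ) < c - n0 / (p : ℝ) ^ j := by
    have : n0 / (p : ℝ) ^ j < c - u (b i0) := by
      rw [div_lt_iff₀ hpj]
      linarith
    linarith
  have e6 := hb.lev_card460 hu i0 _ e5
  omega

theorem lemDECinf (h1 : S_Linf.{w}) : S_DECinf.{w} := by
  intro p _ L _ _ _ u hu g r hr hg0 hug0 M _ hM V hV h b hb i i0 hi hri
  by_contra hcon
  push Not at hcon
  have e1 := h1 p L u hu g r hr hg0 hug0 M hM V hV (u (b i))
  rw [hb.lev_first460 hu i hi] at e1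
  have e2 : (u (b i0) : ℝ) < (u (b i) : ℝ) + 1 := by exact_mod_cast hcon
  have e3 := hb.lev_card460 hu i0 _ e2
  omega

end Pool.Agent.TH923.DM
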