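import Mathlib

/-!
# Averages over finite families and multiplicatively almost invariant families

`avg f` is the average of `f` over a finite type.  `exists_inv` gives, for finitely many positive
integers `m`, a finite family of positive integers whose distribution is almost invariant under
multiplication by each `m`.  `chain` decouples a divisibility chain with ratios `1 + x * w l`
from the random variable `x`.
-/

set_option autoImplicit false

namespace Pool.Agent.TH460

open Finset

/-- Average over a finite type. -/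
noncomputable def avg {ι : Type} [Fintype ι] (f : ι → ℝ) : ℝ := (∑ i, f i) / (Fintype.card ι : ℝ)

section avg

variable {ι κ : Type} [Fintype ι] [Fintype κ]

lemma avg_const [Nonempty ι] (c : ℝ) : avg (fun _ : ι => c) = c := by
  have h : (Fintype.card ι : ℝ) ≠ 0 := by exact_mod_cast Fintype.card_ne_zero
  simp [avg, h]

lemma avg_mono {f g : ι → ℝ} (h : ∀ i, f i ≤ g i) : avg f ≤ avg g := by
  unfold avg
  exact div_le_div_of_nonneg_right (Finset.sum_le_sum fun i _ => h i) (Nat.cast_nonneg _)

lemma avg_add (f g : ι → ℝ) : avg (fun i => f i + g i) = avg f + avg g := by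
  simp only [avg, Finset.sum_add_distrib, add_div]

lemma avg_sub (f g : ι → ℝ) : avg (fun i => f i - g i) = avg f - avg g := by
  simp only [avg, Finset.sum_sub_distrib, sub_div]

lemma avg_le_const [Nonempty ι] {f : ι → ℝ} {c : ℝ} (h : ∀ i, f i ≤ c) : avg f ≤ c := by
  calc avg f ≤ avg (fun _ : ι => c) := avg_mono h
    _ = c := avg_const c

lemma const_le_avg [Nonempty ι] {f : ι → ℝ} {c : ℝ} (h : ∀ i, c ≤ f i) : c ≤ avg f := by
  calc c = avg (fun _ : ι => c) := (avg_const c).symm
    _ ≤ avg f := avg_mono h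

lemma avg_prod (f : ι → κ → ℝ) :
    avg (fun p : ι × κ => f p.1 p.2) = avg (fun i => avg (fun k => f i k)) := by
  unfold avg
  rw [Fintype.sum_prod_type, Fintype.card_prod]
  push_cast
  rw [← Finset.sum_div, div_div]
  congr 1
  ring

lemma avg_comm (f : ι → κ → ℝ) :
    avg (fun i => avg (fun k => f i k)) = avg (fun k => avg (fun i => f i k)) := by
  unfold avg
  rw [← Finset.sum_div, ← Finset.sum_div, Finset.sum_comm, div_div, div_div, mul_comm]

lemma avg_sum {α : Type} (s : Finset α) (f : α → ι → ℝ) :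
    avg (fun i => ∑ a ∈ s, f a i) = ∑ a ∈ s, avg (f a) := by
  unfold avg
  rw [Finset.sum_comm, Finset.sum_div]

lemma abs_avg_sub_le [Nonempty ι] {f g : ι → ℝ} {η : ℝ} (h : ∀ i, |f i - g i| ≤ η) :
    |avg f - avg g| ≤ η := by
  rw [← avg_sub, abs_le]
  constructor
  · apply const_le_avg
    intro i
    exact (abs_le.1 (h i)).1
  · apply avg_le_const
    intro i
    exact (abs_le.1 (h i)).2

lemma exists_of_avg_lt [Nonempty ι] {f : ι → ℝ} {c : ℝ} (h : avg f < c) : ∃ i, f i < c := by
  by_contra hcon
  push Not at hcon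
  exact absurd (const_le_avg hcon) (not_le.2 h)

end avg

lemma avg_fin_telescope (T : ℕ) (hT : 0 < T) (H : ℕ → ℝ) (h0 : ∀ z, 0 ≤ H z)
    (h1 : ∀ z, H z ≤ 1) :
    |avg (fun t : Fin T => H (t + 1)) - avg (fun t : Fin T => H t)| ≤ 1 / T := by
  rw [← avg_sub]
  unfold avg
  have h : ∑ i : Fin T, (H ((i : ℕ) + 1) - H (i : ℕ)) = H T - H 0 := by
    rw [Fin.sum_univ_eq_sum_range (fun i => H (i + 1) - H i) T, Finset.sum_range_sub]
  rw [h, Fintype.card_fin, abs_div]
  have hT' : (0 : ℝ) < T := by exact_mod_cast hT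
  rw [abs_of_pos hT']
  apply div_le_div_of_nonneg_right _ hT'.le
  rw [abs_le]
  constructor <;> linarith [h0 T, h1 T, h0 0, h1 0]

/-- Multiplicatively almost invariant finite families. -/
theorem exists_inv (M : Finset ℕ) (hM : ∀ m ∈ M, 0 < m) (η : ℝ) (hη : 0 < η) :
    ∃ (V : Type) (_ : Fintype V) (_ : Nonempty V) (v : V → ℕ), (∀ i, 0 < v i) ∧
      ∀ m ∈ M, ∀ G : ℕ → ℝ, (∀ z, 0 ≤ G z) → (∀ z, G z ≤ 1) →
        |avg (fun i => G (v i * m)) - avg (fun i => G (v i))| ≤ η := by
  classical
  induction M using Finset.induction_on with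
  | empty =>
    exact ⟨Unit, inferInstance, inferInstance, fun _ => 1, fun _ => one_pos, by simp⟩
  | insert a M ha ih =>
    obtain ⟨V, hV1, hV2, v, hv, hinv⟩ := ih (fun m hm => hM m (Finset.mem_insert_of_mem hm))
    have ha0 : 0 < a := hM a (Finset.mem_insert_self _ _)
    obtain ⟨T, hT⟩ := exists_nat_gt (1 / η)
    have hT0 : 0 < T := by
      have : (0 : ℝ) < T := lt_trans (by positivity) hT
      exact_mod_cast this
    have hT' : (0 : ℝ) < T := by exact_mod_cast hT0
    have hTη : 1 / (T : ℝ) ≤ η := by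
      rw [div_le_iff₀ hT']
      rw [div_lt_iff₀ hη] at hT
      linarith
    have : Nonempty (Fin T) := ⟨⟨0, hT0⟩⟩
    refine ⟨V × Fin T, inferInstance, inferInstance, fun p => v p.1 * a ^ (p.2 : ℕ), ?_, ?_⟩
    · intro p
      exact Nat.mul_pos (hv _) (pow_pos ha0 _)
    · intro m hm G h0 h1
      rcases Finset.mem_insert.1 hm with rfl | hm
      · rw [avg_prod (fun i (t : Fin T) => G (v i * m ^ (t : ℕ) * m)),
          avg_prod (fun i (t : Fin T) => G (v i * m ^ (t : ℕ)))]
        apply abs_avg_sub_le
        intro i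
        have := avg_fin_telescope T hT0 (fun t => G (v i * m ^ t)) (fun _ => h0 _) (fun _ => h1 _)
        refine le_trans (le_of_eq ?_) (this.trans hTη)
        congr 2
        unfold avg
        congr 1
        refine Finset.sum_congr rfl fun t _ => ?_
        show G (v i * m ^ (t : ℕ) * m) = G (v i * m ^ ((t : ℕ) + 1))
        rw [pow_succ, mul_assoc]
      · rw [avg_prod (fun i (t : Fin T) => G (v i * a ^ (t : ℕ) * m)),
          avg_prod (fun i (t : Fin T) => G (v i * a ^ (t : ℕ))),
          avg_comm (fun i (t : Fin T) => G (v i * a ^ (t : ℕ) * m)),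
          avg_comm (fun i (t : Fin T) => G (v i * a ^ (t : ℕ)))]
        apply abs_avg_sub_le
        intro t
        have := hinv m hm (fun z => G (z * a ^ (t : ℕ))) (fun _ => h0 _) (fun _ => h1 _)
        refine le_trans (le_of_eq ?_) this
        congr 2
        unfold avg
        congr 1
        refine Finset.sum_congr rfl fun i _ => ?_
        show G (v i * a ^ (t : ℕ) * m) = G (v i * m * a ^ (t : ℕ))
        rw [mul_right_comm]

/-- `1 + x * Q x w i n = ∏_{l < n} (1 + x * w (i + l))`. -/
def Q (x : ℕ) (w : ℕ → ℕ) (i : ℕ) : ℕ → ℕ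
  | 0 => 0
  | n + 1 => Q x w i n + w (i + n) * (1 + x * Q x w i n)

lemma one_add_Q (x : ℕ) (w : ℕ → ℕ) (i n : ℕ) :
    1 + x * Q x w i n = ∏ l ∈ range n, (1 + x * w (i + l)) := by
  induction n with
  | zero => simp [Q]
  | succ n ih =>
    rw [Finset.prod_range_succ, ← ih]
    simp only [Q]
    ring

lemma Q_congr (x : ℕ) (w w' : ℕ → ℕ) (i n : ℕ) (h : ∀ l < n, w (i + l) = w' (i + l)) :
    Q x w i n = Q x w' i n := by
  induction n with
  | zero => rfl
  | succ n ih =>
    simp only [Q]
    rw [ih (fun l hl => h l (by omega)), h n (by omega)]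

lemma Q_pos (x : ℕ) (w : ℕ → ℕ) (hw : ∀ l, 0 < w l) (i n : ℕ) (hn : 0 < n) : 0 < Q x w i n := by
  obtain ⟨m, rfl⟩ : ∃ m, n = m + 1 := ⟨n - 1, by omega⟩
  simp only [Q]
  have : 0 < w (i + m) * (1 + x * Q x w i m) := Nat.mul_pos (hw _) (by omega)
  omega

/-- Decoupling of the chain from `x`. -/
theorem chain (X : Type) [Fintype X] [Nonempty X] (x : X → ℕ) (η : ℝ)
    (hη : 0 < η) (L : ℕ) :
    ∃ (Ω : Type) (_ : Fintype Ω) (_ : Nonempty Ω) (w : Ω → ℕ → ℕ), (∀ ω l, 0 < w ω l) ∧
      ∀ i n, i + n ≤ L → ∀ G : ℕ → ℕ → ℝ, (∀ a b, 0 ≤ G a b) → (∀ a b, G a b ≤ 1) →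
        |avg (fun p : X × Ω => G (x p.1) (Q (x p.1) (w p.2) i n)) -
          avg (fun p : X × Ω => G (x p.1) (∑ l ∈ range n, w p.2 (i + l)))| ≤ n * η := by
  classical
  induction L with
  | zero =>
    refine ⟨Unit, inferInstance, inferInstance, fun _ _ => 1, fun _ _ => one_pos, ?_⟩
    intro i n hin G _ _
    obtain rfl : n = 0 := by omega
    simp [Q]
  | succ L ih =>
    obtain ⟨Ω, hΩ1, hΩ2, w, hw, hdec⟩ := ih
    let M : Finset ℕ := (Finset.univ : Finset (X × Ω × Fin (L + 1) × Fin (L + 1))).image
      (fun p => 1 + x p.1 * Q (x p.1) (w p.2.1) p.2.2.1 p.2.2.2)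
    obtain ⟨V, hV1, hV2, v, hv, hinv⟩ := exists_inv M (by
      intro m hm
      simp only [M, Finset.mem_image, Finset.mem_univ, true_and] at hm
      obtain ⟨p, rfl⟩ := hm
      omega) η hη
    let w' : Ω × V → ℕ → ℕ := fun p l => if l < L then w p.1 l else v p.2
    have hw'1 : ∀ p l, l < L → w' p l = w p.1 l := by
      intro p l hl
      simp [w', hl]
    have hw'2 : ∀ p, w' p L = v p.2 := by
      intro p
      simp [w']
    refine ⟨Ω × V, inferInstance, inferInstance, w', ?_, ?_⟩
    · intro p l
      by_cases hl : l < L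
      · rw [hw'1 p l hl]; exact hw _ _
      · simp only [w', hl, if_false]; exact hv _
    intro i n hin G h0 h1
    rcases Nat.lt_or_ge (i + n) (L + 1) with hlt | hge
    · -- only old variables
      have e1 : (fun p : X × (Ω × V) => G (x p.1) (Q (x p.1) (w' p.2) i n)) =
          (fun p : X × (Ω × V) => G (x p.1) (Q (x p.1) (w p.2.1) i n)) := by
        funext p
        rw [Q_congr (x p.1) (w' p.2) (w p.2.1) i n (fun l hl => hw'1 _ _ (by omega))]
      have e2 : (fun p : X × (Ω × V) => G (x p.1) (∑ l ∈ range n, w' p.2 (i + l))) =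
          (fun p : X × (Ω × V) => G (x p.1) (∑ l ∈ range n, w p.2.1 (i + l))) := by
        funext p
        congr 1
        refine Finset.sum_congr rfl fun l hl => ?_
        rw [Finset.mem_range] at hl
        exact hw'1 _ _ (by omega)
      rw [e1, e2]
      have key : ∀ F : X → Ω → ℝ, avg (fun p : X × (Ω × V) => F p.1 p.2.1) =
          avg (fun p : X × Ω => F p.1 p.2) := by
        intro F
        rw [avg_prod (fun a (q : Ω × V) => F a q.1), avg_prod F]
        congr 1
        funext a
        rw [avg_prod (fun (b : Ω) (_ : V) => F a b)]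
        congr 1
        funext b
        exact avg_const _
      rw [key (fun a b => G (x a) (Q (x a) (w b) i n)),
        key (fun a b => G (x a) (∑ l ∈ range n, w b (i + l)))]
      exact hdec i n (by omega) G h0 h1
    · rcases Nat.eq_zero_or_pos n with rfl | hn
      · simp [Q]
      obtain ⟨m, rfl⟩ : ∃ m, n = m + 1 := ⟨n - 1, by omega⟩
      have him : i + m = L := by omega
      have e1 : ∀ p : X × (Ω × V), Q (x p.1) (w' p.2) i (m + 1) =
          Q (x p.1) (w p.2.1) i m + v p.2.2 * (1 + x p.1 * Q (x p.1) (w p.2.1) i m) := by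
        intro p
        simp only [Q]
        rw [Q_congr (x p.1) (w' p.2) (w p.2.1) i m (fun l hl => hw'1 _ _ (by omega)), him, hw'2]
      have e2 : ∀ p : X × (Ω × V), ∑ l ∈ range (m + 1), w' p.2 (i + l) =
          ∑ l ∈ range m, w p.2.1 (i + l) + v p.2.2 := by
        intro p
        rw [Finset.sum_range_succ, him, hw'2]
        congr 1
        refine Finset.sum_congr rfl fun l hl => ?_
        rw [Finset.mem_range] at hl
        exact hw'1 _ _ (by omega)
      have s1 : avg (fun p : X × (Ω × V) => G (x p.1) (Q (x p.1) (w' p.2) i (m + 1))) =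
          avg (fun a => avg (fun b => avg (fun k => G (x a) (Q (x a) (w b) i m +
            v k * (1 + x a * Q (x a) (w b) i m))))) := by
        simp_rw [e1]
        rw [avg_prod (fun a (q : Ω × V) => G (x a) (Q (x a) (w q.1) i m +
            v q.2 * (1 + x a * Q (x a) (w q.1) i m)))]
        congr 1
        funext a
        rw [avg_prod (fun (b : Ω) (k : V) => G (x a) (Q (x a) (w b) i m +
            v k * (1 + x a * Q (x a) (w b) i m)))]
      have s2 : avg (fun p : X × (Ω × V) => G (x p.1) (∑ l ∈ range (m + 1), w' p.2 (i + l))) =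
          avg (fun k => avg (fun p : X × Ω => G (x p.1) (∑ l ∈ range m, w p.2 (i + l) + v k))) := by
        simp_rw [e2]
        rw [avg_prod (fun a (q : Ω × V) => G (x a) (∑ l ∈ range m, w q.1 (i + l) + v q.2))]
        have : ∀ k, avg (fun p : X × Ω => G (x p.1) (∑ l ∈ range m, w p.2 (i + l) + v k)) =
            avg (fun a => avg (fun b => G (x a) (∑ l ∈ range m, w b (i + l) + v k))) := by
          intro k
          rw [avg_prod (fun a (b : Ω) => G (x a) (∑ l ∈ range m, w b (i + l) + v k))]
        simp_rw [this]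
        rw [avg_comm (fun (k : V) (a : X) => avg (fun b : Ω =>
          G (x a) (∑ l ∈ range m, w b (i + l) + v k)))]
        congr 1
        funext a
        rw [avg_comm (fun (k : V) (b : Ω) => G (x a) (∑ l ∈ range m, w b (i + l) + v k)),
          avg_prod (fun (b : Ω) (k : V) => G (x a) (∑ l ∈ range m, w b (i + l) + v k))]
      have s3 : avg (fun k => avg (fun p : X × Ω => G (x p.1) (Q (x p.1) (w p.2) i m + v k))) =
          avg (fun a => avg (fun b => avg (fun k => G (x a) (Q (x a) (w b) i m + v k)))) := by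
        have : ∀ k, avg (fun p : X × Ω => G (x p.1) (Q (x p.1) (w p.2) i m + v k)) =
            avg (fun a => avg (fun b => G (x a) (Q (x a) (w b) i m + v k))) := by
          intro k
          rw [avg_prod (fun a (b : Ω) => G (x a) (Q (x a) (w b) i m + v k))]
        simp_rw [this]
        rw [avg_comm (fun (k : V) (a : X) => avg (fun b : Ω =>
          G (x a) (Q (x a) (w b) i m + v k)))]
        congr 1
        funext a
        rw [avg_comm (fun (k : V) (b : Ω) => G (x a) (Q (x a) (w b) i m + v k))]
      have b1 : |avg (fun a => avg (fun b => avg (fun k => G (x a) (Q (x a) (w b) i m +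
            v k * (1 + x a * Q (x a) (w b) i m))))) -
          avg (fun a => avg (fun b => avg (fun k => G (x a) (Q (x a) (w b) i m + v k))))| ≤ η := by
        apply abs_avg_sub_le
        intro a
        apply abs_avg_sub_le
        intro b
        refine hinv (1 + x a * Q (x a) (w b) i m) ?_
          (fun z => G (x a) (Q (x a) (w b) i m + z)) (fun _ => h0 _ _) (fun _ => h1 _ _)
        simp only [M, Finset.mem_image, Finset.mem_univ, true_and]
        exact ⟨(a, b, ⟨i, by omega⟩, ⟨m, by omega⟩), rfl⟩
      have b2 : |avg (fun k => avg (fun p : X × Ω => G (x p.1) (Q (x p.1) (w p.2) i m + v k))) -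
          avg (fun k => avg (fun p : X × Ω =>
            G (x p.1) (∑ l ∈ range m, w p.2 (i + l) + v k)))| ≤ m * η := by
        apply abs_avg_sub_le
        intro k
        exact hdec i m (by omega) (fun a b => G a (b + v k)) (fun _ _ => h0 _ _)
          (fun _ _ => h1 _ _)
      rw [s1, s2]
      rw [s3] at b2
      push_cast
      have := abs_sub_le
        (avg (fun a => avg (fun b => avg (fun k => G (x a) (Q (x a) (w b) i m +
            v k * (1 + x a * Q (x a) (w b) i m))))))
        (avg (fun a => avg (fun b => avg (fun k => G (x a) (Q (x a) (w b) i m + v k)))))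
        (avg (fun k => avg (fun p : X × Ω =>
            G (x p.1) (∑ l ∈ range m, w p.2 (i + l) + v k))))
      linarith

end Pool.Agent.TH460
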