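import Mathlib
import Pool.Agent.TH923.DM.Defs

/-!
Job 1450 (DM-N): an additive polynomial that is small on a space `Y` forces `dim Y ≤ m`.
-/

set_option autoImplicit false

namespace Pool.Agent.TH923.DM

open Polynomial

universe w v

section

variable {L : Type*} [Field L] {u : L → ℤ} (p : ℕ) [Fact p.Prime] [CharP L p]

omit [CharP L p] in
lemma prodZ460 [Algebra (ZMod p) L] (z : L) :
    z ^ p - z = ∏ c : ZMod p, (z - algebraMap (ZMod p) L c) := by
  have hp := (Fact.out : p.Prime)
  have hdeg : (X ^ p - X : (ZMod p)[X]).natDegree = p :=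
    FiniteField.X_pow_card_sub_X_natDegree_eq (ZMod p) hp.one_lt
  have hroots : (X ^ p - X : (ZMod p)[X]).roots = Finset.univ.val := by
    have := FiniteField.roots_X_pow_card_sub_X (ZMod p)
    rwa [ZMod.card] at this
  have hmon : (X ^ p - X : (ZMod p)[X]).Monic := by
    apply monic_X_pow_sub
    rw [degree_X]
    exact_mod_cast hp.one_lt
  have h := prod_multiset_X_sub_C_of_monic_of_roots_card_eq hmon (by
    rw [hroots, hdeg]; simp [ZMod.card])
  rw [hroots] at h
  have h2 := congrArg (aeval z) h
  rw [map_sub, map_pow, aeval_X] at h2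
  rw [← h2, ← Finset.prod_eq_multiset_prod, map_prod]
  refine Finset.prod_congr rfl fun c _ => ?_
  simp

omit [CharP L p] in
lemma prodY460 [Algebra (ZMod p) L] (y y1 : L) (hy1 : y1 ≠ 0) :
    y ^ p - y1 ^ (p - 1) * y = ∏ c : ZMod p, (y - c • y1) := by
  have hp := (Fact.out : p.Prime)
  have h := prodZ460 p (y / y1)
  have h1 : ∏ c : ZMod p, (y - c • y1) =
      y1 ^ p * ∏ c : ZMod p, (y / y1 - algebraMap (ZMod p) L c) := by
    have : y1 ^ p = ∏ _c : ZMod p, y1 := by
      rw [Finset.prod_const, Finset.card_univ, ZMod.card]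
    rw [this, ← Finset.prod_mul_distrib]
    refine Finset.prod_congr rfl fun c _ => ?_
    rw [Algebra.smul_def]
    field_simp
  rw [h1, ← h]
  have h2 : y1 ^ p = y1 ^ (p - 1) * y1 := by
    rw [← pow_succ, Nat.sub_add_cancel hp.one_lt.le]
  have h3 : y1 ^ p * (y / y1) ^ p = y ^ p := by
    rw [← mul_pow, mul_div_cancel₀ _ hy1]
  rw [mul_sub, h3, h2, mul_assoc, mul_div_cancel₀ _ hy1]

/-- right division by `X ^ p - a X` -/
lemma rightDiv460 (a : L) (g : ℕ → L) (m : ℕ) : ∃ h : ℕ → L, h (m + 1) = 0 ∧
    (∀ i, 1 ≤ i → i ≤ m + 1 → g i = h (i - 1) - h i * a ^ (p ^ i)) ∧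
    ∀ x, ev p g (m + 1) x = ev p h m (x ^ p - a * x) + (g 0 + h 0 * a) * x := by
  have hp := (Fact.out : p.Prime)
  -- the coefficients, downwards
  let H : ℕ → L := fun k => Nat.rec 0 (fun k Hk => g (m + 1 - k) + Hk * a ^ (p ^ (m + 1 - k))) k
  have H0 : H 0 = 0 := rfl
  have HS : ∀ k, H (k + 1) = g (m + 1 - k) + H k * a ^ (p ^ (m + 1 - k)) := fun k => rfl
  have hrec : ∀ i, 1 ≤ i → i ≤ m + 1 → g i = H (m + 1 - (i - 1)) - H (m + 1 - i) * a ^ (p ^ i) := by
    intro i h1 h2
    have e1 : m + 1 - (i - 1) = (m + 1 - i) + 1 := by omega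
    rw [e1, HS]
    have e2 : m + 1 - (m + 1 - i) = i := by omega
    rw [e2]; ring
  refine ⟨fun i => H (m + 1 - i), by simp [H0], hrec, fun x => ?_⟩
  unfold ev
  have e3 : ∀ i ∈ Finset.range (m + 1), H (m + 1 - i) * (x ^ p - a * x) ^ p ^ i =
      H (m + 1 - i) * x ^ p ^ (i + 1) - H (m + 1 - i) * a ^ p ^ i * x ^ p ^ i := by
    intro i _
    rw [sub_pow_char_pow, ← pow_mul, mul_pow, ← pow_succ']
    ring
  rw [Finset.sum_congr rfl e3, Finset.sum_sub_distrib, Finset.sum_range_succ' _ (m + 1)]
  have e4 : ∀ i ∈ Finset.range (m + 1), g (i + 1) * x ^ p ^ (i + 1) =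
      H (m + 1 - i) * x ^ p ^ (i + 1) - H (m + 1 - (i + 1)) * a ^ p ^ (i + 1) * x ^ p ^ (i + 1) := by
    intro i hi
    have := hrec (i + 1) (by omega) (by have := Finset.mem_range.1 hi; omega)
    rw [this]
    simp only [Nat.add_sub_cancel]
    ring
  rw [Finset.sum_congr rfl e4, Finset.sum_sub_distrib]
  have e5 : ∑ i ∈ Finset.range (m + 1), H (m + 1 - (i + 1)) * a ^ p ^ (i + 1) * x ^ p ^ (i + 1) =
      ∑ i ∈ Finset.range (m + 1), H (m + 1 - i) * a ^ p ^ i * x ^ p ^ i -
        H (m + 1 - 0) * a ^ p ^ 0 * x ^ p ^ 0 := by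
    have h6 := Finset.sum_range_succ' (fun i => H (m + 1 - i) * a ^ p ^ i * x ^ p ^ i) (m + 1)
    rw [Finset.sum_range_succ] at h6
    have h7 : H (m + 1 - (m + 1)) = 0 := by rw [Nat.sub_self]; exact H0
    rw [h7, zero_mul, zero_mul, add_zero] at h6
    rw [h6]; ring
  rw [e5]
  simp only [pow_zero, pow_one, Nat.sub_zero]
  ring

end

theorem lemN : S_N.{w} := by
  intro p _ L _ _ _ u hu m
  have hp := (Fact.out : p.Prime)
  have hp1 : (1 : ℝ) ≤ p := by exact_mod_cast hp.one_lt.le
  induction m with
  | zero =>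
    intro f β hβ Y _ h1 h2
    have hbot : Y = ⊥ := by
      rw [Submodule.eq_bot_iff]
      intro y hy
      by_contra hy0
      obtain ⟨i, hi, hfi, hlt⟩ := h2 y hy hy0
      have hi0 : i = 0 := Nat.le_zero.1 hi
      subst hi0
      have e1 : ev p f 0 y = f 0 * y := by simp [ev]
      have h3 := h1 y hy hy0
      rw [e1] at h3
      have h4 := h3.ord (mul_ne_zero hfi hy0)
      rw [hu.mul _ _ hfi hy0] at h4
      push_cast at h4
      simp only [pow_zero, one_mul] at hlt
      linarith
    rw [hbot, finrank_bot]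
  | succ m ih =>
    intro f β hβ Y _ h1 h2
    classical
    by_cases hY : Y = ⊥
    · rw [hY, finrank_bot]; exact Nat.zero_le _
    -- minimal element
    have hfin : (Y : Set L).Finite := by
      have : Finite Y := Module.finite_of_finite (ZMod p)
      exact Set.toFinite _
    obtain ⟨y0, hy0, hy00⟩ := (Submodule.ne_bot_iff Y).1 hY
    obtain ⟨y1, ⟨hy1, hy10⟩, hmin⟩ := Set.exists_min_image {y | y ∈ Y ∧ y ≠ 0} u
      (hfin.subset fun y hy => hy.1) ⟨y0, hy0, hy00⟩
    set W := levG p hu Y (u y1) with hW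
    have hy1W : y1 ∉ W := by
      rw [hW, mem_levG]
      rintro ⟨-, h | h⟩
      · exact hy10 h
      · exact lt_irrefl _ h
    obtain ⟨φ, hφ1, hφ2⟩ := Submodule.exists_dual_map_eq_bot_of_notMem (p := W) hy1W inferInstance
    have hφW : ∀ x ∈ W, φ x = 0 := by
      intro x hx
      have : φ x ∈ W.map φ := Submodule.mem_map_of_mem hx
      rw [hφ2] at this
      exact (Submodule.mem_bot _).1 this
    set Y' := Y ⊓ LinearMap.ker φ with hY'
    have hfd' : FiniteDimensional (ZMod p) Y' :=
      Submodule.finiteDimensional_of_le (S₂ := Y) inf_le_left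
    have hdim : Module.finrank (ZMod p) Y ≤ Module.finrank (ZMod p) Y' + 1 := by
      have h3 := LinearMap.finrank_range_add_finrank_ker (φ.domRestrict Y)
      have h4 : Module.finrank (ZMod p) (LinearMap.range (φ.domRestrict Y)) ≤ 1 := by
        calc _ ≤ Module.finrank (ZMod p) (ZMod p) := Submodule.finrank_le _
          _ = 1 := Module.finrank_self _
      have h5 : Module.finrank (ZMod p) (LinearMap.ker (φ.domRestrict Y)) ≤
          Module.finrank (ZMod p) Y' := by
        have h6 : (LinearMap.ker (φ.domRestrict Y)).map Y.subtype ≤ Y' := by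
          rintro _ ⟨x, hx, rfl⟩
          refine ⟨x.2, ?_⟩
          have : φ.domRestrict Y x = 0 := hx
          rwa [LinearMap.domRestrict_apply] at this
        have h7 := Submodule.finrank_mono h6
        rwa [Submodule.finrank_map_subtype_eq] at h7
      omega
    -- orders of `y - c y1`
    have hsub : ∀ y ∈ Y', ∀ c : ZMod p, c ≠ 0 → y - c • y1 ≠ 0 ∧ u (y - c • y1) = u y1 := by
      intro y hy c hc
      have hφy : φ y = 0 := hy.2
      have hφ3 : φ (y - c • y1) ≠ 0 := by
        rw [map_sub, hφy, map_smul, zero_sub, neg_ne_zero]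
        exact smul_ne_zero hc hφ1
      have hne : y - c • y1 ≠ 0 := by
        intro h; rw [h, map_zero] at hφ3; exact hφ3 rfl
      have hmem : y - c • y1 ∈ Y := Y.sub_mem hy.1 (Y.smul_mem c hy1)
      refine ⟨hne, le_antisymm ?_ (hmin _ ⟨hmem, hne⟩)⟩
      by_contra hlt
      push Not at hlt
      exact hφ3 (hφW _ ⟨hmem, Or.inr (by exact_mod_cast hlt)⟩)
    set a : L := y1 ^ (p - 1) with ha
    have hua : a ≠ 0 := pow_ne_zero _ hy10
    have huv : u a = ((p - 1 : ℕ) : ℤ) * u y1 := hu.pow hy10 _
    have hord : ∀ y ∈ Y', y ≠ 0 → y ^ p - a * y ≠ 0 ∧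
        u (y ^ p - a * y) = u y + ((p - 1 : ℕ) : ℤ) * u y1 := by
      intro y hy hyne
      rw [ha, prodY460 p y y1 hy10]
      have hall : ∀ c ∈ (Finset.univ : Finset (ZMod p)), y - c • y1 ≠ 0 := by
        intro c _
        by_cases hc : c = 0
        · rw [hc, zero_smul, sub_zero]; exact hyne
        · exact (hsub y hy c hc).1
      refine ⟨Finset.prod_ne_zero_iff.2 hall, ?_⟩
      rw [hu.prod _ _ hall, ← Finset.add_sum_erase _ _ (Finset.mem_univ (0 : ZMod p)), zero_smul,
        sub_zero]
      congr 1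
      rw [Finset.sum_congr rfl (fun c hc => (hsub y hy c (Finset.ne_of_mem_erase hc)).2),
        Finset.sum_const, Finset.card_erase_of_mem (Finset.mem_univ _), Finset.card_univ,
        ZMod.card, nsmul_eq_mul]
    -- the new polynomials
    set cc : L := ev p f (m + 1) y1 / y1 with hcc
    set g : ℕ → L := Function.update f 0 (f 0 - cc) with hg
    have hg0 : g 0 = f 0 - cc := by rw [hg, Function.update_self]
    have hgi : ∀ i, 1 ≤ i → g i = f i := by
      intro i hi
      rw [hg, Function.update_of_ne (by omega)]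
    have hevg : ∀ x, ev p g (m + 1) x = ev p f (m + 1) x - cc * x := by
      intro x
      unfold ev
      rw [Finset.sum_range_succ' _ (m + 1), Finset.sum_range_succ' _ (m + 1), hg0,
        Finset.sum_congr rfl (fun i _ => by rw [hgi (i + 1) (by omega)])]
      simp only [pow_zero, pow_one]
      ring
    obtain ⟨h, hh1, hh2, hh3⟩ := rightDiv460 p a g m
    have hpa : y1 ^ p - a * y1 = 0 := by
      rw [ha, ← pow_succ, Nat.sub_add_cancel hp.one_lt.le, sub_self]
    have hh0 : g 0 = - (h 0 * a) := by
      have e1 := hh3 y1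
      rw [hpa, ev_zero, zero_add, hevg, hcc, div_mul_cancel₀ _ hy10, sub_self] at e1
      have e2 := (mul_eq_zero.1 e1.symm).resolve_right hy10
      linear_combination e2
    have hh4 : ∀ x, ev p g (m + 1) x = ev p h m (x ^ p - a * x) := by
      intro x
      rw [hh3 x, hh0]; ring
    -- the new space
    set ψ : L →ₗ[ZMod p] L := evL p (fun i => if i = 0 then -a else 1) 1 with hψ
    have hψa : ∀ x, ψ x = x ^ p - a * x := by
      intro x
      rw [hψ, evL_apply]
      simp [ev, Finset.sum_range_succ]
      ring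
    set Y'' := Y'.map ψ with hY''
    have hfd'' : FiniteDimensional (ZMod p) Y'' := inferInstance
    have hdim2 : Module.finrank (ZMod p) Y'' = Module.finrank (ZMod p) Y' := by
      have hinj : Function.Injective (ψ.domRestrict Y') := by
        rw [← LinearMap.ker_eq_bot, LinearMap.ker_eq_bot']
        intro x hx
        by_contra hx0
        have hx1 : (x : L) ≠ 0 := by simpa using hx0
        have := (hord x x.2 hx1).1
        rw [LinearMap.domRestrict_apply, hψa] at hx
        exact this hx
      have := LinearMap.finrank_range_of_inj hinj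
      rw [← this, LinearMap.range_domRestrict]
    -- bound for cc
    have hcc1 : ∀ s : ℝ, (u y1 : ℝ) ≤ s → GE u cc (β s - s) := by
      intro s hs
      have e1 : GE u cc (β (u y1) - u y1) := by
        have e2 := (h1 y1 hy1 hy10).mul hu (GE.self (u := u) (y1⁻¹))
        rw [hu.inv hy10] at e2
        push_cast at e2
        rw [hcc, div_eq_mul_inv]
        exact e2.mono (by linarith)
      exact e1.mono (hβ hs)
    have huR : ∀ y ∈ Y', y ≠ 0 → (u (y ^ p - a * y) : ℝ) = u y + ((p : ℝ) - 1) * u y1 := by
      intro y hy hyne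
      rw [(hord y hy hyne).2]
      push_cast [Nat.cast_sub hp.one_lt.le]
      ring
    have key := ih h (fun t => β (t - ((p : ℝ) - 1) * u y1)) (by
      intro s t hst
      have := hβ (show s - ((p : ℝ) - 1) * u y1 ≤ t - ((p : ℝ) - 1) * u y1 by linarith)
      simp only at this ⊢
      linarith) Y'' ?_ ?_
    · omega
    · rintro _ ⟨y, hy, rfl⟩ hne
      have hyne : y ≠ 0 := by
        intro h0; rw [h0, map_zero] at hne; exact hne rfl
      have hy1y : (u y1 : ℝ) ≤ u y := by exact_mod_cast hmin y ⟨hy.1, hyne⟩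
      rw [hψa]
      have e1 : (u (y ^ p - a * y) : ℝ) - ((p : ℝ) - 1) * u y1 = u y := by
        rw [huR y hy hyne]; ring
      simp only [e1]
      rw [← hh4, hevg]
      refine (h1 y hy.1 hyne).sub hu ?_
      have e2 := (hcc1 (u y) hy1y).mul hu (GE.self (u := u) y)
      exact e2.mono (by linarith)
    · rintro _ ⟨y, hy, rfl⟩ hne
      have hyne : y ≠ 0 := by
        intro h0; rw [h0, map_zero] at hne; exact hne rfl
      have hy1y : (u y1 : ℝ) ≤ u y := by exact_mod_cast hmin y ⟨hy.1, hyne⟩
      rw [hψa]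
      have e1 : (u (y ^ p - a * y) : ℝ) - ((p : ℝ) - 1) * u y1 = u y := by
        rw [huR y hy hyne]; ring
      simp only [e1]
      have e0 := huR y hy hyne
      -- the index for g
      obtain ⟨i, him, hgne, hglt⟩ : ∃ i ≤ m + 1, g i ≠ 0 ∧
          (u (g i) : ℝ) + (p : ℝ) ^ i * u y < β (u y) := by
        obtain ⟨i, him, hfne, hflt⟩ := h2 y hy.1 hyne
        refine ⟨i, him, ?_⟩
        rcases Nat.eq_zero_or_pos i with h0 | h0
        · subst h0
          rw [pow_zero, one_mul] at hflt
          have e2 := hcc1 (u y) hy1y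
          have e3 : cc = 0 ∨ u (f 0) < u cc := by
            rcases e2 with h | h
            · exact Or.inl h
            · right
              have : (u (f 0) : ℝ) < u cc := by linarith
              exact_mod_cast this
          have e4 := hu.add_eq hfne (y := -cc) (by
            rcases e3 with h | h
            · left; rw [h, neg_zero]
            · right; rwa [hu.neg])
          rw [hg0, sub_eq_add_neg]
          refine ⟨e4.1, ?_⟩
          rw [e4.2, pow_zero, one_mul]
          exact hflt
        · rw [hgi i h0]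
          exact ⟨hfne, hflt⟩
      rcases Nat.eq_zero_or_pos i with h0 | h0
      · subst h0
        have hh0ne : h 0 ≠ 0 := by
          intro h5; rw [hh0, h5, zero_mul, neg_zero] at hgne; exact hgne rfl
        refine ⟨0, Nat.zero_le _, hh0ne, ?_⟩
        rw [hh0, hu.neg, hu.mul _ _ hh0ne hua, huv] at hglt
        push_cast [Nat.cast_sub hp.one_lt.le] at hglt
        rw [e0]
        simp only [pow_zero, one_mul] at hglt ⊢
        linarith
      · have hrel := hh2 i h0 him
        have hpi : (0 : ℝ) ≤ (p : ℝ) ^ (i - 1) := by positivity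
        have hpi' : (0 : ℝ) ≤ (p : ℝ) ^ i := by positivity
        have hpp : (p : ℝ) ^ i = (p : ℝ) ^ (i - 1) * p := by
          rw [← pow_succ, Nat.sub_add_cancel h0]
        -- dichotomy
        by_cases hA : h (i - 1) ≠ 0 ∧ u (h (i - 1)) ≤ u (g i)
        · refine ⟨i - 1, by omega, hA.1, ?_⟩
          have e5 : (u (h (i - 1)) : ℝ) ≤ u (g i) := by exact_mod_cast hA.2
          rw [e0]
          have e6 : (p : ℝ) ^ (i - 1) * (u y + ((p : ℝ) - 1) * u y1) ≤ (p : ℝ) ^ i * u y := by
            rw [hpp, mul_assoc]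
            apply mul_le_mul_of_nonneg_left _ hpi
            have : ((p : ℝ) - 1) * u y1 ≤ ((p : ℝ) - 1) * u y :=
              mul_le_mul_of_nonneg_left hy1y (by linarith)
            linarith
          linarith
        · have hB : h i ≠ 0 ∧ u (h i * a ^ (p ^ i)) ≤ u (g i) := by
            have hapow : a ^ (p ^ i) ≠ 0 := pow_ne_zero _ hua
            by_cases hhi : h i = 0
            · exfalso
              rw [hhi, zero_mul, sub_zero] at hrel
              exact hA ⟨by rw [← hrel]; exact hgne, by rw [← hrel]⟩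
            refine ⟨hhi, ?_⟩
            by_cases hhi1 : h (i - 1) = 0
            · rw [hhi1, zero_sub] at hrel
              rw [hrel, hu.neg]
            · have hA2 : u (g i) < u (h (i - 1)) := by
                by_contra hcon
                push Not at hcon
                exact hA ⟨hhi1, hcon⟩
              -- h i a^.. = h (i-1) - g i
              have e7 : h i * a ^ (p ^ i) = -g i + h (i - 1) := by rw [hrel]; ring
              have e8 := hu.add_eq (x := -g i) (y := h (i - 1)) (neg_ne_zero.2 hgne)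
                (Or.inr (by rwa [hu.neg]))
              rw [e7, e8.2, hu.neg]
          have him' : i ≤ m := by
            by_contra hcon
            have : i = m + 1 := by omega
            rw [this, hh1] at hB
            exact hB.1 rfl
          refine ⟨i, him', hB.1, ?_⟩
          have e9 := hB.2
          rw [hu.mul _ _ hB.1 (pow_ne_zero _ hua), hu.pow hua, huv] at e9
          have e10 : ((u (h i) + ((p ^ i : ℕ) : ℤ) * (((p - 1 : ℕ) : ℤ) * u y1) : ℤ) : ℝ) ≤
              u (g i) := by exact_mod_cast e9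
          push_cast [Nat.cast_sub hp.one_lt.le] at e10
          rw [e0]
          have : (p : ℝ) ^ i * (u y + ((p : ℝ) - 1) * u y1) =
              (p : ℝ) ^ i * u y + (p : ℝ) ^ i * (((p : ℝ) - 1) * u y1) := by ring
          rw [this]
          linarith

end Pool.Agent.TH923.DM
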