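import Pool.Agent.TH460.Avg

/-!
# The pattern `a, b, a * (b + 1)` is partition regular
-/

set_option autoImplicit false

namespace Pool.Agent.TH460

open Finset

/-- `Null Z`: some finite family of positive integers has all its dilates almost disjoint
from `Z`, uniformly. -/
def Null (Z : Set ℕ) : Prop := ∀ ε : ℝ, 0 < ε → ∃ (X : Type) (_ : Fintype X) (_ : Nonempty X)
  (x : X → ℕ), (∀ i, 0 < x i) ∧
    ∀ k, 0 < k → avg (fun i => Z.indicator (fun _ => (1 : ℝ)) (k * x i)) ≤ ε

lemma ind_nonneg (Z : Set ℕ) (n : ℕ) : 0 ≤ Z.indicator (fun _ => (1 : ℝ)) n :=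
  Set.indicator_nonneg (fun _ _ => zero_le_one) n

lemma ind_le_one (Z : Set ℕ) (n : ℕ) : Z.indicator (fun _ => (1 : ℝ)) n ≤ 1 := by
  by_cases h : n ∈ Z
  · simp [h]
  · simp [h]

lemma Null.empty : Null ∅ := by
  intro ε hε
  refine ⟨Unit, inferInstance, inferInstance, fun _ => 1, fun _ => one_pos, ?_⟩
  intro k _
  simp only [Set.indicator_empty]
  rw [avg_const]
  exact hε.le

lemma Null.union {Z Z' : Set ℕ} (h : Null Z) (h' : Null Z') : Null (Z ∪ Z') := by
  intro ε hε
  obtain ⟨X, hX1, hX2, x, hx, hxZ⟩ := h (ε / 2) (by positivity)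
  obtain ⟨Y, hY1, hY2, y, hy, hyZ⟩ := h' (ε / 2) (by positivity)
  refine ⟨X × Y, inferInstance, inferInstance, fun p => x p.1 * y p.2,
    fun p => Nat.mul_pos (hx _) (hy _), ?_⟩
  intro k hk
  have h1 : avg (fun p : X × Y => (Z ∪ Z').indicator (fun _ => (1 : ℝ)) (k * (x p.1 * y p.2))) ≤
      avg (fun p : X × Y => Z.indicator (fun _ => (1 : ℝ)) (k * (x p.1 * y p.2)) +
        Z'.indicator (fun _ => (1 : ℝ)) (k * (x p.1 * y p.2))) := by
    apply avg_mono
    intro p
    by_cases hz : k * (x p.1 * y p.2) ∈ Z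
    · have := ind_nonneg Z' (k * (x p.1 * y p.2))
      simp only [Set.indicator_of_mem hz, Set.indicator_of_mem (Set.mem_union_left _ hz)]
      linarith
    · by_cases hz' : k * (x p.1 * y p.2) ∈ Z'
      · have := ind_nonneg Z (k * (x p.1 * y p.2))
        simp only [Set.indicator_of_mem hz', Set.indicator_of_mem (Set.mem_union_right _ hz')]
        linarith
      · have h0 : k * (x p.1 * y p.2) ∉ Z ∪ Z' := by
          rintro (h | h)
          · exact hz h
          · exact hz' h
        simp [hz, hz']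
  have h2 : avg (fun p : X × Y => Z.indicator (fun _ => (1 : ℝ)) (k * (x p.1 * y p.2))) ≤
      ε / 2 := by
    rw [avg_prod (fun a b => Z.indicator (fun _ => (1 : ℝ)) (k * (x a * y b))),
      avg_comm (fun a b => Z.indicator (fun _ => (1 : ℝ)) (k * (x a * y b)))]
    apply avg_le_const
    intro b
    refine le_trans (le_of_eq ?_) (hxZ (k * y b) (Nat.mul_pos hk (hy b)))
    congr 1
    funext a
    congr 1
    ring
  have h3 : avg (fun p : X × Y => Z'.indicator (fun _ => (1 : ℝ)) (k * (x p.1 * y p.2))) ≤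
      ε / 2 := by
    rw [avg_prod (fun a b => Z'.indicator (fun _ => (1 : ℝ)) (k * (x a * y b)))]
    apply avg_le_const
    intro a
    refine le_trans (le_of_eq ?_) (hyZ (k * x a) (Nat.mul_pos hk (hx a)))
    congr 1
    funext b
    congr 1
    ring
  rw [avg_add] at h1
  linarith

lemma Null.biUnion {α : Type} (s : Finset α) (C : α → Set ℕ) (h : ∀ a ∈ s, Null (C a)) :
    Null {n | ∃ a ∈ s, n ∈ C a} := by
  classical
  induction s using Finset.induction_on with
  | empty =>
    have : {n | ∃ a ∈ (∅ : Finset α), n ∈ C a} = ∅ := by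
      ext n
      simp
    rw [this]
    exact Null.empty
  | insert a s ha ih =>
    have : {n | ∃ b ∈ insert a s, n ∈ C b} = C a ∪ {n | ∃ b ∈ s, n ∈ C b} := by
      ext n
      simp
    rw [this]
    exact (h a (Finset.mem_insert_self _ _)).union
      (ih (fun b hb => h b (Finset.mem_insert_of_mem hb)))

/-- A divisibility chain all of whose shifted ratios avoid a null set. -/
theorem exists_chain (Z : Set ℕ) (hZ : Null Z) (L : ℕ) :
    ∃ y : ℕ → ℕ, (∀ l, 0 < y l) ∧ ∀ i j, i < j → j ≤ L →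
      ∃ b, 0 < b ∧ b ∉ Z ∧ y j = y i * (b + 1) := by
  classical
  -- parameters
  set K : ℝ := ((L + 1 : ℕ) : ℝ) ^ 2 with hK
  have hK0 : 0 < K := by positivity
  obtain ⟨X, hX1, hX2, x, hx, hxZ⟩ := hZ (1 / (4 * K)) (by positivity)
  set η : ℝ := 1 / (4 * K * (L + 1)) with hη
  have hη0 : 0 < η := by positivity
  obtain ⟨Ω, hΩ1, hΩ2, w, hw, hdec⟩ := chain X x η hη0 L
  let bad : ℕ → ℕ → X × Ω → ℝ := fun i n p =>
    Z.indicator (fun _ => (1 : ℝ)) (x p.1 * Q (x p.1) (w p.2) i n)
  have hbad : ∀ i n, 0 < n → i + n ≤ L → avg (bad i n) ≤ 1 / (2 * K) := by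
    intro i n hn hin
    have h1 := hdec i n hin (fun a b => Z.indicator (fun _ => (1 : ℝ)) (a * b))
      (fun _ _ => ind_nonneg _ _) (fun _ _ => ind_le_one _ _)
    have h2 : avg (fun p : X × Ω => Z.indicator (fun _ => (1 : ℝ))
        (x p.1 * ∑ l ∈ range n, w p.2 (i + l))) ≤ 1 / (4 * K) := by
      rw [avg_prod (fun a b => Z.indicator (fun _ => (1 : ℝ))
        (x a * ∑ l ∈ range n, w b (i + l))),
        avg_comm (fun a b => Z.indicator (fun _ => (1 : ℝ))
        (x a * ∑ l ∈ range n, w b (i + l)))]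
      apply avg_le_const
      intro b
      have hpos : 0 < ∑ l ∈ range n, w b (i + l) :=
        Finset.sum_pos (fun l _ => hw b _) ⟨0, Finset.mem_range.2 hn⟩
      refine le_trans (le_of_eq ?_) (hxZ _ hpos)
      congr 1
      funext a
      rw [mul_comm]
    have h3 : (n : ℝ) * η ≤ 1 / (4 * K) := by
      rw [hη]
      have hnL : (n : ℝ) ≤ L + 1 := by
        have : n ≤ L + 1 := by omega
        exact_mod_cast this
      rw [mul_one_div, div_le_div_iff₀ (by positivity) (by positivity)]
      nlinarith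
    have h4 := (abs_le.1 h1).2
    have h5 : 1 / (4 * K) + 1 / (4 * K) = 1 / (2 * K) := by
      field_simp
      ring
    have h6 : avg (bad i n) ≤ 1 / (4 * K) + 1 / (4 * K) := by
      have : avg (bad i n) = avg (fun p : X × Ω => Z.indicator (fun _ => (1 : ℝ))
        (x p.1 * Q (x p.1) (w p.2) i n)) := rfl
      rw [this]
      linarith
    linarith
  -- union bound
  let T : Finset (ℕ × ℕ) := (range (L + 1) ×ˢ range (L + 1)).filter
    (fun q => 0 < q.2 ∧ q.1 + q.2 ≤ L)
  have hsum : avg (fun p => ∑ q ∈ T, bad q.1 q.2 p) < 1 := by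
    rw [avg_sum T (fun q p => bad q.1 q.2 p)]
    calc ∑ q ∈ T, avg (fun p => bad q.1 q.2 p) ≤ ∑ q ∈ T, 1 / (2 * K) := by
          apply Finset.sum_le_sum
          intro q hq
          simp only [T, Finset.mem_filter] at hq
          exact hbad q.1 q.2 hq.2.1 hq.2.2
      _ = (T.card : ℝ) * (1 / (2 * K)) := by rw [Finset.sum_const, nsmul_eq_mul]
      _ ≤ K * (1 / (2 * K)) := by
          apply mul_le_mul_of_nonneg_right _ (by positivity)
          have h1 : T.card ≤ (L + 1) * (L + 1) := by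
            refine (Finset.card_filter_le _ _).trans ?_
            rw [Finset.card_product, Finset.card_range]
          rw [hK, sq]
          exact_mod_cast h1
      _ < 1 := by
          rw [mul_one_div, div_lt_one (by positivity)]
          linarith
  obtain ⟨p, hp⟩ := exists_of_avg_lt hsum
  have hgood : ∀ i n, 0 < n → i + n ≤ L → x p.1 * Q (x p.1) (w p.2) i n ∉ Z := by
    intro i n hn hin hmem
    have hq : (i, n) ∈ T := by
      simp only [T, Finset.mem_filter, Finset.mem_product, Finset.mem_range]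
      omega
    have h1 : bad i n p = 1 := by
      simp only [bad]
      exact Set.indicator_of_mem hmem _
    have h2 : bad i n p ≤ ∑ q ∈ T, bad q.1 q.2 p :=
      Finset.single_le_sum (f := fun q => bad q.1 q.2 p) (fun q _ => ind_nonneg _ _) hq
    linarith
  refine ⟨fun l => ∏ t ∈ range l, (1 + x p.1 * w p.2 t), ?_, ?_⟩
  · intro l
    exact Finset.prod_pos (fun t _ => by omega)
  · intro i j hij hjL
    obtain ⟨n, rfl⟩ : ∃ n, j = i + n := ⟨j - i, by omega⟩
    have hn : 0 < n := by omega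
    refine ⟨x p.1 * Q (x p.1) (w p.2) i n, ?_, hgood i n hn hjL, ?_⟩
    · exact Nat.mul_pos (hx _) (Q_pos _ _ (hw p.2) _ _ hn)
    · show ∏ t ∈ range (i + n), (1 + x p.1 * w p.2 t) =
        (∏ t ∈ range i, (1 + x p.1 * w p.2 t)) * (x p.1 * Q (x p.1) (w p.2) i n + 1)
      rw [Finset.prod_range_add, add_comm (x p.1 * Q (x p.1) (w p.2) i n) 1, one_add_Q]

/-- Iterated density argument along a chain. -/
lemma iterate {κ : Type} (c : ℕ → κ) (δ : ℝ) (hδ : 0 < δ) (J : Finset κ)
    (hJ : ∀ a ∈ J, ∀ (X : Type) [Fintype X] [Nonempty X] (x : X → ℕ), (∀ i, 0 < x i) →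
      ∃ k, 0 < k ∧ δ < avg (fun i => {n | c n = a}.indicator (fun _ => (1 : ℝ)) (k * x i)))
    (hno : ∀ a b : ℕ, 0 < a → 0 < b → c a = c b → c a ≠ c (a * (b + 1)))
    (y : ℕ → ℕ) (hy : ∀ l, 0 < y l) (S : Finset ℕ) (hS : 1 < δ ^ J.card * (S.card : ℝ)) :
    ∃ S' ⊆ S, 1 < S'.card ∧ ∀ i ∈ S', ∀ j ∈ S', ∀ b, 0 < b → y j = y i * (b + 1) → c b ∉ J := by
  classical
  have key : ∀ J' ⊆ J, ∃ S' ⊆ S, δ ^ J'.card * (S.card : ℝ) ≤ S'.card ∧
      ∀ i ∈ S', ∀ j ∈ S', ∀ b, 0 < b → y j = y i * (b + 1) → c b ∉ J' := by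
    intro J' hJ'
    induction J' using Finset.induction_on with
    | empty =>
      refine ⟨S, subset_rfl, by simp, by simp⟩
    | insert a J' ha ih =>
      obtain ⟨S', hS', hcard, hprop⟩ := ih (fun b hb => hJ' (Finset.mem_insert_of_mem hb))
      rcases S'.eq_empty_or_nonempty with he | hne
      · refine ⟨S', hS', ?_, ?_⟩
        · rw [he] at hcard ⊢
          simp only [Finset.card_empty, Nat.cast_zero] at hcard ⊢
          rw [Finset.card_insert_of_notMem ha, pow_succ]
          have h0 : (0 : ℝ) ≤ S.card := Nat.cast_nonneg _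
          have h1 : δ ^ J'.card * (S.card : ℝ) = 0 := le_antisymm hcard (by positivity)
          calc δ ^ J'.card * δ * (S.card : ℝ) = (δ ^ J'.card * (S.card : ℝ)) * δ := by ring
            _ = 0 := by rw [h1, zero_mul]
            _ ≤ 0 := le_rfl
        · rw [he]; simp
      · have : Nonempty S' := hne.to_subtype
        obtain ⟨k, hk, hkδ⟩ := hJ a (hJ' (Finset.mem_insert_self _ _)) S' (fun i => y i)
          (fun i => hy _)
        let S'' := S'.filter (fun i => c (k * y i) = a)
        refine ⟨S'', (Finset.filter_subset _ _).trans hS', ?_, ?_⟩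
        · have h1 : avg (fun i : S' => {n | c n = a}.indicator (fun _ => (1 : ℝ)) (k * y i)) =
              (S''.card : ℝ) / S'.card := by
            unfold avg
            rw [Fintype.card_coe]
            congr 1
            rw [Finset.sum_coe_sort S' (fun i =>
              {n | c n = a}.indicator (fun _ => (1 : ℝ)) (k * y i))]
            simp only [S'', Finset.card_filter]
            push_cast
            refine Finset.sum_congr rfl fun i _ => ?_
            by_cases h : c (k * y i) = a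
            · simp [h]
            · simp [h]
          rw [h1] at hkδ
          have h2 : (0 : ℝ) < S'.card := by
            exact_mod_cast Finset.card_pos.2 hne
          rw [lt_div_iff₀ h2] at hkδ
          rw [Finset.card_insert_of_notMem ha, pow_succ]
          calc δ ^ J'.card * δ * (S.card : ℝ) = δ * (δ ^ J'.card * (S.card : ℝ)) := by ring
            _ ≤ δ * S'.card := by
                apply mul_le_mul_of_nonneg_left hcard hδ.le
            _ ≤ S''.card := hkδ.le
        · intro i hi j hj b hb hyb hmem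
          rcases Finset.mem_insert.1 hmem with h | h
          · simp only [S'', Finset.mem_filter] at hi hj
            apply hno (k * y i) b (Nat.mul_pos hk (hy i)) hb
            · rw [hi.2, h]
            · rw [mul_assoc, ← hyb, hi.2, hj.2]
          · exact hprop i (Finset.mem_of_mem_filter _ hi) j (Finset.mem_of_mem_filter _ hj) b hb
              hyb h
  obtain ⟨S', hS', hcard, hprop⟩ := key J subset_rfl
  refine ⟨S', hS', ?_, hprop⟩
  have : (1 : ℝ) < S'.card := lt_of_lt_of_le hS hcard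
  exact_mod_cast this

/-- The pattern `a, b, a * (b + 1)` is partition regular. -/
theorem pattern {κ : Type} [Finite κ] (c : ℕ → κ) :
    ∃ a b : ℕ, 0 < a ∧ 0 < b ∧ c a = c b ∧ c a = c (a * (b + 1)) := by
  classical
  have := Fintype.ofFinite κ
  by_contra hcon
  have hno : ∀ a b : ℕ, 0 < a → 0 < b → c a = c b → c a ≠ c (a * (b + 1)) := by
    intro a b ha hb h1 h2
    exact hcon ⟨a, b, ha, hb, h1, h2⟩
  -- null and non-null colours
  let N : Finset κ := Finset.univ.filter (fun a => Null {n | c n = a})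
  let J : Finset κ := Finset.univ.filter (fun a => ¬ Null {n | c n = a})
  have hZ : Null {n | ∃ a ∈ N, n ∈ {n | c n = a}} := by
    apply Null.biUnion
    intro a ha
    exact (Finset.mem_filter.1 ha).2
  have hJ1 : ∀ a ∈ J, ∃ δ : ℝ, 0 < δ ∧ ∀ (X : Type) [Fintype X] [Nonempty X] (x : X → ℕ),
      (∀ i, 0 < x i) →
      ∃ k, 0 < k ∧ δ < avg (fun i => {n | c n = a}.indicator (fun _ => (1 : ℝ)) (k * x i)) := by
    intro a ha
    have h := (Finset.mem_filter.1 ha).2
    unfold Null at h
    push Not at h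
    obtain ⟨δ, hδ, h⟩ := h
    refine ⟨δ, hδ, ?_⟩
    intro X _ _ x hx
    obtain ⟨k, hk, hk2⟩ := h X inferInstance inferInstance x hx
    exact ⟨k, hk, hk2⟩
  choose! δ hδ0 hδ using hJ1
  obtain ⟨δ₀, hδ₀, hδ₀'⟩ : ∃ δ₀ : ℝ, 0 < δ₀ ∧ ∀ a ∈ J, δ₀ ≤ δ a := by
    rcases J.eq_empty_or_nonempty with he | hne
    · exact ⟨1, one_pos, by rw [he]; simp⟩
    · obtain ⟨a0, ha0, hmin⟩ := J.exists_min_image δ hne
      exact ⟨δ a0, hδ0 a0 ha0, hmin⟩
  obtain ⟨L, hL⟩ := exists_nat_gt (1 / δ₀ ^ J.card)
  obtain ⟨y, hy, hchain⟩ := exists_chain _ hZ L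
  obtain ⟨S', hS', hcard, hprop⟩ := iterate c δ₀ hδ₀ J (by
      intro a ha X _ _ x hx
      obtain ⟨k, hk, hk2⟩ := hδ a ha X x hx
      exact ⟨k, hk, lt_of_le_of_lt (hδ₀' a ha) hk2⟩) hno y hy (range (L + 1)) (by
      rw [Finset.card_range]
      rw [div_lt_iff₀ (by positivity)] at hL
      push_cast
      have : 0 < δ₀ ^ J.card := by positivity
      nlinarith)
  obtain ⟨i, hi, j, hj, hij⟩ := Finset.one_lt_card.1 hcard
  have main : ∀ i ∈ S', ∀ j ∈ S', i < j → False := by
    intro i hi j hj hij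
    obtain ⟨b, hb, hbZ, hyb⟩ := hchain i j hij (by
      have := Finset.mem_range.1 (hS' hj)
      omega)
    have h1 := hprop i hi j hj b hb hyb
    apply hbZ
    refine ⟨c b, ?_, rfl⟩
    simp only [N, J, Finset.mem_filter, Finset.mem_univ, true_and, not_not] at h1 ⊢
    exact h1
  rcases lt_or_gt_of_ne hij with h | h
  · exact main i hi j hj h
  · exact main j hj i hi h

end Pool.Agent.TH460
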